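import Pool.Agent.helper80.HH.SpecA
import Pool.Agent.helper15.IR.PAV
set_option autoImplicit false

/-! Row hh:AVI (Gallagher's inequality). -/

open MeasureTheory Set Filter

namespace Pool.Agent.HH

noncomputable section

/-- `Σ c_p cos(p t)` -/
def AVI_C (P : Finset ℤ) (c : ℤ → ℝ) (t : ℝ) : ℝ := ∑ p ∈ P, c p * Real.cos ((p : ℝ) * t)

/-- `Σ c_p sin(p t)` -/
def AVI_S (P : Finset ℤ) (c : ℤ → ℝ) (t : ℝ) : ℝ := ∑ p ∈ P, c p * Real.sin ((p : ℝ) * t)

/-- the square of the absolute value of `Σ c_p e^(ipt)` -/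
def AVI_h (P : Finset ℤ) (c : ℤ → ℝ) (t : ℝ) : ℝ := AVI_C P c t ^ 2 + AVI_S P c t ^ 2

theorem AVI_Ccont (P : Finset ℤ) (c : ℤ → ℝ) : Continuous (AVI_C P c) := by
  unfold AVI_C
  fun_prop

theorem AVI_Scont (P : Finset ℤ) (c : ℤ → ℝ) : Continuous (AVI_S P c) := by
  unfold AVI_S
  fun_prop

theorem AVI_hcont (P : Finset ℤ) (c : ℤ → ℝ) : Continuous (AVI_h P c) := by
  unfold AVI_h
  exact ((AVI_Ccont P c).pow 2).add ((AVI_Scont P c).pow 2)

theorem AVI_hnn (P : Finset ℤ) (c : ℤ → ℝ) (t : ℝ) : 0 ≤ AVI_h P c t := by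
  unfold AVI_h
  positivity

theorem AVI_ps (P : Finset ℤ) (t : ℝ) : ‖IR.ps P t‖ ^ 2 = AVI_h P (fun _ => 1) t := by
  have hre : (IR.ps P t).re = AVI_C P (fun _ => 1) t := by
    unfold IR.ps AVI_C
    rw [Complex.re_sum]
    refine Finset.sum_congr rfl fun p _ => ?_
    rw [one_mul]
    exact Complex.exp_ofReal_mul_I_re _
  have him : (IR.ps P t).im = AVI_S P (fun _ => 1) t := by
    unfold IR.ps AVI_S
    rw [Complex.im_sum]
    refine Finset.sum_congr rfl fun p _ => ?_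
    rw [one_mul]
    exact Complex.exp_ofReal_mul_I_im _
  rw [Complex.sq_norm, Complex.normSq_apply, hre, him]
  unfold AVI_h
  ring

theorem AVI_sum (P : Finset ℤ) (c : ℤ → ℝ) (t : ℝ) : AVI_h P c t = ∑ p ∈ P, ∑ p' ∈ P, c p * c p' * Real.cos (((p - p' : ℤ) : ℝ) * t) := by
  unfold AVI_h AVI_C AVI_S
  rw [sq, sq, Finset.sum_mul_sum, Finset.sum_mul_sum, ← Finset.sum_add_distrib]
  refine Finset.sum_congr rfl fun p _ => ?_
  rw [← Finset.sum_add_distrib]
  refine Finset.sum_congr rfl fun p' _ => ?_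
  rw [show ((p - p' : ℤ) : ℝ) * t = p * t - p' * t by push_cast; ring, Real.cos_sub]
  ring

theorem AVI_int (P : Finset ℤ) (c : ℤ → ℝ) (N : ℕ) : ∫ t in (-(N * Real.pi))..(N * Real.pi), AVI_h P c t = 2 * (N * Real.pi) * ∑ p ∈ P, c p ^ 2 := by
  simp_rw [AVI_sum]
  rw [intervalIntegral.integral_finsetSum (fun p _ => (continuous_finsetSum _ fun p' _ => by fun_prop).intervalIntegrable _ _)]
  rw [Finset.mul_sum]
  refine Finset.sum_congr rfl fun p hp => ?_
  rw [intervalIntegral.integral_finsetSum (fun p' _ => Continuous.intervalIntegrable (by fun_prop) _ _)]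
  rw [Finset.sum_eq_single_of_mem p hp]
  · simp
    ring
  · intro p' _ hne
    rw [intervalIntegral.integral_const_mul, IR.PAV_cosint (p - p') N (sub_ne_zero.2 (Ne.symm hne)), mul_zero]

theorem AVI_dC (P : Finset ℤ) (t : ℝ) : HasDerivAt (AVI_C P (fun _ => 1)) (-(AVI_S P (fun q => (q : ℝ)) t)) t := by
  have h : HasDerivAt (fun t : ℝ => ∑ p ∈ P, (1 : ℝ) * Real.cos ((p : ℝ) * t)) (∑ p ∈ P, -((p : ℝ) * Real.sin ((p : ℝ) * t))) t := by
    refine HasDerivAt.fun_sum fun p _ => ?_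
    have h1 : HasDerivAt (fun t : ℝ => (p : ℝ) * t) (p : ℝ) t := by
      simpa using (hasDerivAt_id t).const_mul (p : ℝ)
    have h2 := (h1.cos).const_mul (1 : ℝ)
    refine h2.congr_deriv ?_
    ring
  rw [Finset.sum_neg_distrib] at h
  exact h

theorem AVI_dS (P : Finset ℤ) (t : ℝ) : HasDerivAt (AVI_S P (fun _ => 1)) (AVI_C P (fun q => (q : ℝ)) t) t := by
  have h : HasDerivAt (fun t : ℝ => ∑ p ∈ P, (1 : ℝ) * Real.sin ((p : ℝ) * t)) (∑ p ∈ P, ((p : ℝ) * Real.cos ((p : ℝ) * t))) t := by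
    refine HasDerivAt.fun_sum fun p _ => ?_
    have h1 : HasDerivAt (fun t : ℝ => (p : ℝ) * t) (p : ℝ) t := by
      simpa using (hasDerivAt_id t).const_mul (p : ℝ)
    have h2 := (h1.sin).const_mul (1 : ℝ)
    refine h2.congr_deriv ?_
    ring
  exact h

/-- the derivative of `AVI_h P 1` -/
def AVI_d (P : Finset ℤ) (t : ℝ) : ℝ := 2 * (AVI_S P (fun _ => 1) t * AVI_C P (fun q => (q : ℝ)) t - AVI_C P (fun _ => 1) t * AVI_S P (fun q => (q : ℝ)) t)

theorem AVI_dh (P : Finset ℤ) (t : ℝ) : HasDerivAt (AVI_h P (fun _ => 1)) (AVI_d P t) t := by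
  have h1 := ((AVI_dC P t).pow 2).add ((AVI_dS P t).pow 2)
  refine h1.congr_deriv ?_
  unfold AVI_d
  rw [show 2 - 1 = 1 from rfl, pow_one, pow_one, Nat.cast_ofNat]
  ring

theorem AVI_dcont (P : Finset ℤ) : Continuous (AVI_d P) := by
  unfold AVI_d
  exact continuous_const.mul (((AVI_Scont P _).mul (AVI_Ccont P _)).sub ((AVI_Ccont P _).mul (AVI_Scont P _)))

theorem AVI_dle (P : Finset ℤ) (N t : ℝ) (hN : 0 < N) : |AVI_d P t| ≤ N * AVI_h P (fun _ => 1) t + AVI_h P (fun q => (q : ℝ)) t / N := by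
  have key : ∀ a b : ℝ, |2 * (a * b)| ≤ N * a ^ 2 + b ^ 2 / N := by
    intro a b
    have hs : 0 ≤ (N * |a| - |b|) ^ 2 / N := by positivity
    have e : (N * |a| - |b|) ^ 2 / N = N * a ^ 2 + b ^ 2 / N - 2 * (|a| * |b|) := by
      field_simp
      rw [← sq_abs a, ← sq_abs b]
      ring
    rw [abs_mul, abs_mul, abs_of_pos (show (0 : ℝ) < 2 by norm_num)]
    linarith
  have k1 := key (AVI_S P (fun _ => 1) t) (AVI_C P (fun q => (q : ℝ)) t)
  have k2 := key (AVI_C P (fun _ => 1) t) (AVI_S P (fun q => (q : ℝ)) t)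
  have e1 : AVI_d P t = 2 * (AVI_S P (fun _ => 1) t * AVI_C P (fun q => (q : ℝ)) t) - 2 * (AVI_C P (fun _ => 1) t * AVI_S P (fun q => (q : ℝ)) t) := by
    unfold AVI_d
    ring
  rw [e1]
  refine (abs_sub _ _).trans ?_
  unfold AVI_h
  have e2 : (AVI_C P (fun q => (q : ℝ)) t ^ 2 + AVI_S P (fun q => (q : ℝ)) t ^ 2) / N = AVI_C P (fun q => (q : ℝ)) t ^ 2 / N + AVI_S P (fun q => (q : ℝ)) t ^ 2 / N := add_div _ _ _
  rw [e2]
  linarith

/-- the majorant -/
def AVI_H (P : Finset ℤ) (N : ℝ) (t : ℝ) : ℝ := 2 * N * AVI_h P (fun _ => 1) t + AVI_h P (fun q => (q : ℝ)) t / N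

theorem AVI_Hcont (P : Finset ℤ) (N : ℝ) : Continuous (AVI_H P N) := by
  unfold AVI_H
  exact (continuous_const.mul (AVI_hcont P _)).add ((AVI_hcont P _).div_const _)

theorem AVI_Hnn (P : Finset ℤ) (N : ℝ) (hN : 0 < N) (t : ℝ) : 0 ≤ AVI_H P N t := by
  unfold AVI_H
  have h1 := AVI_hnn P (fun _ => 1) t
  have h2 := AVI_hnn P (fun q => (q : ℝ)) t
  positivity

theorem AVI_gal (P : Finset ℤ) (N x : ℝ) (hN : 0 < N) : AVI_h P (fun _ => 1) x ≤ ∫ y in x..(x + 1 / N), AVI_H P N y := by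
  have hx : x ≤ x + 1 / N := by
    have : 0 < 1 / N := by positivity
    linarith
  have hd : ∀ y ∈ uIcc x (x + 1 / N), HasDerivAt (fun y => N * ((y - (x + 1 / N)) * AVI_h P (fun _ => 1) y)) (N * (AVI_h P (fun _ => 1) y + (y - (x + 1 / N)) * AVI_d P y)) y := by
    intro y _
    have h1 : HasDerivAt (fun y : ℝ => y - (x + 1 / N)) 1 y := (hasDerivAt_id y).sub_const _
    have h2 := (h1.mul (AVI_dh P y)).const_mul N
    refine h2.congr_deriv ?_
    ring
  have hc : Continuous fun y : ℝ => N * (AVI_h P (fun _ => 1) y + (y - (x + 1 / N)) * AVI_d P y) := by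
    exact continuous_const.mul ((AVI_hcont P _).add ((continuous_id.sub continuous_const).mul (AVI_dcont P)))
  have hF := intervalIntegral.integral_eq_sub_of_hasDerivAt hd (hc.intervalIntegrable _ _)
  have e : N * ((x + 1 / N - (x + 1 / N)) * AVI_h P (fun _ => 1) (x + 1 / N)) - N * ((x - (x + 1 / N)) * AVI_h P (fun _ => 1) x) = AVI_h P (fun _ => 1) x := by
    field_simp
    ring
  rw [e] at hF
  rw [← hF]
  refine intervalIntegral.integral_mono_on hx (hc.intervalIntegrable _ _) ((AVI_Hcont P N).intervalIntegrable _ _) fun y hy => ?_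
  have h1 := AVI_dle P N y hN
  have h2 : (y - (x + 1 / N)) * AVI_d P y ≤ 1 / N * |AVI_d P y| := by
    refine (le_abs_self _).trans ?_
    rw [abs_mul]
    refine mul_le_mul_of_nonneg_right ?_ (abs_nonneg _)
    rw [abs_le]
    constructor
    · linarith [hy.1]
    · have : 0 < 1 / N := by positivity
      linarith [hy.2]
  unfold AVI_H
  calc N * (AVI_h P (fun _ => 1) y + (y - (x + 1 / N)) * AVI_d P y) ≤ N * (AVI_h P (fun _ => 1) y + 1 / N * |AVI_d P y|) := by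
        refine mul_le_mul_of_nonneg_left ?_ hN.le
        linarith
    _ = N * AVI_h P (fun _ => 1) y + |AVI_d P y| := by
        field_simp
    _ ≤ _ := by linarith

theorem AVI_tot (P : Finset ℤ) (N C0 : ℝ) (hN : 0 < N) (hP : ∀ q ∈ P, |(q : ℝ)| ≤ C0 * N) :
    ∫ t in (-((21 : ℕ) * Real.pi))..((21 : ℕ) * Real.pi), AVI_H P N t ≤ 42 * Real.pi * (2 + C0 ^ 2) * N * P.card := by
  have hadd : ∫ t in (-((21 : ℕ) * Real.pi))..((21 : ℕ) * Real.pi), AVI_H P N t = (∫ t in (-((21 : ℕ) * Real.pi))..((21 : ℕ) * Real.pi), 2 * N * AVI_h P (fun _ => 1) t) +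
      ∫ t in (-((21 : ℕ) * Real.pi))..((21 : ℕ) * Real.pi), AVI_h P (fun q => (q : ℝ)) t / N :=
    intervalIntegral.integral_add (f := fun t => 2 * N * AVI_h P (fun _ => 1) t) (g := fun t => AVI_h P (fun q => (q : ℝ)) t / N)
      ((continuous_const.mul (AVI_hcont P _)).intervalIntegrable _ _) (((AVI_hcont P _).div_const _).intervalIntegrable _ _)
  rw [hadd, intervalIntegral.integral_const_mul, intervalIntegral.integral_div, AVI_int, AVI_int]
  have h1 : ∑ p ∈ P, (fun _ : ℤ => (1 : ℝ)) p ^ 2 = P.card := by simp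
  have h2 : ∑ p ∈ P, (fun q : ℤ => (q : ℝ)) p ^ 2 ≤ P.card * (C0 * N) ^ 2 := by
    rw [← nsmul_eq_mul]
    refine Finset.sum_le_card_nsmul _ _ _ fun p hp => ?_
    have := hP p hp
    rw [← sq_abs]
    exact pow_le_pow_left₀ (abs_nonneg _) this 2
  have hpi := Real.pi_pos
  rw [h1, Nat.cast_ofNat]
  have h3 : 2 * (21 * Real.pi) * (∑ p ∈ P, (fun q : ℤ => (q : ℝ)) p ^ 2) / N ≤ 2 * (21 * Real.pi) * (P.card * (C0 * N) ^ 2) / N := by
    refine div_le_div_of_nonneg_right ?_ hN.le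
    exact mul_le_mul_of_nonneg_left h2 (by positivity)
  have h4 : 2 * (21 * Real.pi) * ((P.card : ℝ) * (C0 * N) ^ 2) / N = 42 * Real.pi * C0 ^ 2 * N * P.card := by
    field_simp
    ring
  rw [h4] at h3
  calc _ ≤ 2 * N * (2 * (21 * Real.pi) * (P.card : ℝ)) + 42 * Real.pi * C0 ^ 2 * N * P.card := by
        exact add_le_add le_rfl h3
    _ = _ := by ring

theorem AVI_card (N : ℕ) (hN : 1 ≤ N) (V : Finset ℤ) (u : ℤ → ℝ) (hu : ∀ k ∈ V, |u k - k / N| ≤ 20 / N) (z : ℝ) :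
    ((V.filter fun k => z ∈ Icc (u k) (u k + 1 / N)).card : ℝ) ≤ 42 := by
  have hN0 : (0 : ℝ) < N := by exact_mod_cast hN
  have hsub : (V.filter fun k => z ∈ Icc (u k) (u k + 1 / N)) ⊆ Finset.Icc ⌈(N : ℝ) * z - 21⌉ ⌊(N : ℝ) * z + 20⌋ := by
    intro k hk
    rw [Finset.mem_filter] at hk
    obtain ⟨hk1, hk2, hk3⟩ := hk
    have h1 := abs_le.1 (hu k hk1)
    have e1 : (N : ℝ) * (k / N) = k := by field_simp
    have e2 : (N : ℝ) * (20 / N) = 20 := by field_simp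
    have e3 : (N : ℝ) * (1 / N) = 1 := by field_simp
    have a1 : (N : ℝ) * (u k) ≤ N * z := mul_le_mul_of_nonneg_left hk2 hN0.le
    have a2 : (N : ℝ) * z ≤ N * (u k + 1 / N) := mul_le_mul_of_nonneg_left hk3 hN0.le
    have a3 : (N : ℝ) * (u k - k / N) ≤ N * (20 / N) := mul_le_mul_of_nonneg_left h1.2 hN0.le
    have a4 : (N : ℝ) * (-(20 / N)) ≤ N * (u k - k / N) := mul_le_mul_of_nonneg_left h1.1 hN0.le
    rw [mul_add, e3] at a2
    rw [mul_sub, e1, e2] at a3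
    rw [mul_sub, e1, mul_neg, e2] at a4
    rw [Finset.mem_Icc]
    constructor
    · rw [Int.ceil_le]
      linarith
    · rw [Int.le_floor]
      linarith
  have h1 := Finset.card_le_card hsub
  rw [Int.card_Icc] at h1
  have h2 : ((⌊(N : ℝ) * z + 20⌋ + 1 - ⌈(N : ℝ) * z - 21⌉).toNat : ℤ) ≤ 42 := by
    have h3 : ⌊(N : ℝ) * z + 20⌋ + 1 - ⌈(N : ℝ) * z - 21⌉ ≤ 42 := by
      have h4 := Int.floor_le ((N : ℝ) * z + 20)
      have h5 := Int.le_ceil ((N : ℝ) * z - 21)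
      have h6 : ((⌊(N : ℝ) * z + 20⌋ + 1 - ⌈(N : ℝ) * z - 21⌉ : ℤ) : ℝ) ≤ (42 : ℤ) := by
        push_cast
        linarith
      exact_mod_cast h6
    omega
  have h3 : ((V.filter fun k => z ∈ Icc (u k) (u k + 1 / N)).card : ℤ) ≤ 42 := by omega
  exact_mod_cast h3

theorem AVI_proof : AVI_stmt := by
  intro C0 hC0
  have hpi := Real.pi_gt_three
  refine ⟨42 * (42 * Real.pi * (2 + C0 ^ 2)), by nlinarith [sq_nonneg C0, mul_pos (show (0:ℝ) < Real.pi by linarith) (show (0:ℝ) < 2 + C0 ^ 2 by positivity)], ?_⟩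
  intro P N t hN hP ht
  have hN0 : (0 : ℝ) < N := by exact_mod_cast hN
  have hN1 : (1 : ℝ) ≤ N := by exact_mod_cast hN
  have hV : ∀ k ∈ Vs P N t, k ∈ Finset.Icc (-(20 * N : ℤ)) (20 * N) ∧ ∃ u : ℝ, |u - k / N| ≤ 20 / N ∧ t ≤ ‖IR.ps P u‖ := by
    intro k hk
    classical
    unfold Vs at hk
    exact Finset.mem_filter.1 hk
  choose! u hu1 hu2 using fun k hk => (hV k hk).2
  -- the intervals
  have hsubI : ∀ k ∈ Vs P N t, Icc (u k) (u k + 1 / N) ⊆ Icc (-((21 : ℕ) * Real.pi)) ((21 : ℕ) * Real.pi) := by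
    intro k hk
    have h1 := Finset.mem_Icc.1 (hV k hk).1
    have h2 : (k : ℝ) ≤ 20 * N := by exact_mod_cast h1.2
    have h3 : -(20 * N : ℝ) ≤ k := by exact_mod_cast h1.1
    have h4 := abs_le.1 (hu1 k hk)
    have h5 : (k : ℝ) / N ≤ 20 := by
      rw [div_le_iff₀ hN0]
      exact h2
    have h6 : -20 ≤ (k : ℝ) / N := by
      rw [le_div_iff₀ hN0]
      linarith
    have h7 : (20 : ℝ) / N ≤ 20 := by
      rw [div_le_iff₀ hN0]
      linarith
    have h8 : (1 : ℝ) / N ≤ 1 := by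
      rw [div_le_iff₀ hN0]
      linarith
    refine Icc_subset_Icc ?_ ?_
    · push_cast
      linarith
    · push_cast
      linarith
  have hπ0 : -((21 : ℕ) * Real.pi) ≤ (21 : ℕ) * Real.pi := by
    push_cast
    linarith
  have hHi : IntegrableOn (AVI_H P N) (Icc (-((21 : ℕ) * Real.pi)) ((21 : ℕ) * Real.pi)) :=
    (AVI_Hcont P N).continuousOn.integrableOn_compact isCompact_Icc
  have hk1 : ∀ k ∈ Vs P N t, t ^ 2 ≤ ∫ z in Icc (-((21 : ℕ) * Real.pi)) ((21 : ℕ) * Real.pi), (Icc (u k) (u k + 1 / N)).indicator (AVI_H P N) z := by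
    intro k hk
    rw [setIntegral_indicator measurableSet_Icc, inter_eq_right.2 (hsubI k hk)]
    have h1 : t ^ 2 ≤ ‖IR.ps P (u k)‖ ^ 2 := pow_le_pow_left₀ ht (hu2 k hk) 2
    rw [AVI_ps] at h1
    refine h1.trans ((AVI_gal P N (u k) hN0).trans (le_of_eq ?_))
    have hx : u k ≤ u k + 1 / N := by
      have : 0 < 1 / (N : ℝ) := by positivity
      linarith
    rw [intervalIntegral.integral_of_le hx, integral_Icc_eq_integral_Ioc]
  have hsum : ((Vs P N t).card : ℝ) * t ^ 2 ≤ ∫ z in Icc (-((21 : ℕ) * Real.pi)) ((21 : ℕ) * Real.pi), ∑ k ∈ Vs P N t, (Icc (u k) (u k + 1 / N)).indicator (AVI_H P N) z := by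
    rw [integral_finsetSum _ (fun k _ => hHi.indicator measurableSet_Icc)]
    rw [← nsmul_eq_mul]
    exact Finset.card_nsmul_le_sum _ _ _ hk1
  refine hsum.trans ?_
  have hle : ∫ z in Icc (-((21 : ℕ) * Real.pi)) ((21 : ℕ) * Real.pi), ∑ k ∈ Vs P N t, (Icc (u k) (u k + 1 / N)).indicator (AVI_H P N) z ≤
      ∫ z in Icc (-((21 : ℕ) * Real.pi)) ((21 : ℕ) * Real.pi), 42 * AVI_H P N z := by
    refine integral_mono (integrable_finsetSum _ fun k _ => hHi.indicator measurableSet_Icc) (hHi.const_mul _) fun z => ?_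
    have h1 : ∑ k ∈ Vs P N t, (Icc (u k) (u k + 1 / N)).indicator (AVI_H P N) z = (((Vs P N t).filter fun k => z ∈ Icc (u k) (u k + 1 / N)).card : ℝ) * AVI_H P N z := by
      rw [← nsmul_eq_mul, ← Finset.sum_const, Finset.sum_filter]
      refine Finset.sum_congr rfl fun k _ => ?_
      by_cases hz : z ∈ Icc (u k) (u k + 1 / N)
      · rw [indicator_of_mem hz, if_pos hz]
      · rw [indicator_of_notMem hz, if_neg hz]
    simp only
    rw [h1]
    exact mul_le_mul_of_nonneg_right (AVI_card N hN _ u hu1 z) (AVI_Hnn P N hN0 z)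
  refine hle.trans ?_
  rw [integral_const_mul, integral_Icc_eq_integral_Ioc, ← intervalIntegral.integral_of_le hπ0]
  have h9 := AVI_tot P N C0 hN0 hP
  calc 42 * ∫ t in (-((21 : ℕ) * Real.pi))..((21 : ℕ) * Real.pi), AVI_H P N t ≤ 42 * (42 * Real.pi * (2 + C0 ^ 2) * N * P.card) :=
        mul_le_mul_of_nonneg_left h9 (by norm_num)
    _ = _ := by ring

end

end Pool.Agent.HH
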